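import Pool.Agent.Helper40.AC.Stmts

/-!
Project AC, packet P03: the form `om` is closed.
-/

namespace Pool.Agent.Helper15.AC

open Pool.Agent.Helper40.AC
open scoped Matrix

section

variable {S ι n : Type} [CommRing S] [Fintype n] [DecidableEq n] {D : ι → S → S}

theorem D_zero (hadd : ∀ i x y, D i (x + y) = D i x + D i y) (i : ι) : D i 0 = 0 := by
  have h := hadd i 0 0
  rw [add_zero] at h
  exact left_eq_add.mp h

theorem D_neg (hadd : ∀ i x y, D i (x + y) = D i x + D i y) (i : ι) (x : S) :
    D i (-x) = -D i x := by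
  have h := hadd i x (-x)
  rw [add_neg_cancel, D_zero hadd] at h
  linear_combination -h

theorem D_sub (hadd : ∀ i x y, D i (x + y) = D i x + D i y) (i : ι) (x y : S) :
    D i (x - y) = D i x - D i y := by
  rw [sub_eq_add_neg, hadd, D_neg hadd, sub_eq_add_neg]

theorem D_two_mul (hadd : ∀ i x y, D i (x + y) = D i x + D i y) (i : ι) (x : S) :
    D i (2 * x) = 2 * D i x := by
  rw [two_mul, hadd, two_mul]

theorem D_sum (hadd : ∀ i x y, D i (x + y) = D i x + D i y) (i : ι) {κ : Type}
    (s : Finset κ) (f : κ → S) : D i (∑ k ∈ s, f k) = ∑ k ∈ s, D i (f k) := by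
  classical
  induction s using Finset.induction_on with
  | empty => simp [D_zero hadd]
  | insert a s ha ih => rw [Finset.sum_insert ha, Finset.sum_insert ha, hadd, ih]

theorem map_add' (hadd : ∀ i x y, D i (x + y) = D i x + D i y) (i : ι) (X Y : Matrix n n S) :
    (X + Y).map (D i) = X.map (D i) + Y.map (D i) := by
  ext a b
  simp [hadd]

theorem map_sub' (hadd : ∀ i x y, D i (x + y) = D i x + D i y) (i : ι) (X Y : Matrix n n S) :
    (X - Y).map (D i) = X.map (D i) - Y.map (D i) := by
  ext a b
  simp [D_sub hadd]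

theorem map_mul' (hadd : ∀ i x y, D i (x + y) = D i x + D i y)
    (hmul : ∀ i x y, D i (x * y) = D i x * y + x * D i y) (i : ι) (X Y : Matrix n n S) :
    (X * Y).map (D i) = X.map (D i) * Y + X * Y.map (D i) := by
  ext a b
  simp [Matrix.mul_apply, D_sum hadd, hmul, Finset.sum_add_distrib]

theorem map_comm' (hcomm : ∀ i j x, D i (D j x) = D j (D i x)) (i j : ι) (X : Matrix n n S) :
    (X.map (D i)).map (D j) = (X.map (D j)).map (D i) := by
  ext a b
  simp [hcomm]

theorem D_trace (hadd : ∀ i x y, D i (x + y) = D i x + D i y) (i : ι) (X : Matrix n n S) :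
    D i X.trace = (X.map (D i)).trace := by
  simp [Matrix.trace, D_sum hadd]

theorem e_split (hadd : ∀ i x y, D i (x + y) = D i x + D i y)
    (hmul : ∀ i x y, D i (x * y) = D i x * y + x * D i y) {e : Matrix n n S} (he : e * e = e)
    (i : ι) : e.map (D i) * e + e * e.map (D i) = e.map (D i) := by
  have h := map_mul' hadd hmul i e e
  rw [he] at h
  exact h.symm

theorem e_mid (hadd : ∀ i x y, D i (x + y) = D i x + D i y)
    (hmul : ∀ i x y, D i (x * y) = D i x * y + x * D i y) {e : Matrix n n S} (he : e * e = e)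
    (i : ι) : e * e.map (D i) * e = 0 := by
  have h := e_split hadd hmul he i
  have h2 : e * (e.map (D i) * e + e * e.map (D i)) * e = e * e.map (D i) * e := by rw [h]
  have h3 : e * (e.map (D i) * e + e * e.map (D i)) * e
      = e * e.map (D i) * (e * e) + (e * e) * e.map (D i) * e := by noncomm_ring
  rw [h3, he] at h2
  exact left_eq_add.mp h2.symm

/-- `e e_j e_k = e_j e_k e`. -/
theorem e_comm (hadd : ∀ i x y, D i (x + y) = D i x + D i y)
    (hmul : ∀ i x y, D i (x * y) = D i x * y + x * D i y) {e : Matrix n n S} (he : e * e = e)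
    (j k : ι) : e * (e.map (D j) * e.map (D k)) = (e.map (D j) * e.map (D k)) * e := by
  have hj := e_split hadd hmul he j
  have hk := e_split hadd hmul he k
  have h1 : e * e.map (D j) = e.map (D j) - e.map (D j) * e := by
    rw [eq_sub_iff_add_eq, add_comm]; exact hj
  have h2 : e.map (D k) * e = e.map (D k) - e * e.map (D k) := by
    rw [eq_sub_iff_add_eq]; exact hk
  rw [← mul_assoc, h1, mul_assoc (e.map (D j)) (e.map (D k)) e, h2]
  noncomm_ring

theorem br_comm (hadd : ∀ i x y, D i (x + y) = D i x + D i y)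
    (hmul : ∀ i x y, D i (x * y) = D i x * y + x * D i y) {e : Matrix n n S} (he : e * e = e)
    (j k : ι) : e * (e.map (D j) * e.map (D k) - e.map (D k) * e.map (D j)) =
      (e.map (D j) * e.map (D k) - e.map (D k) * e.map (D j)) * e := by
  rw [mul_sub, sub_mul, e_comm hadd hmul he j k, e_comm hadd hmul he k j]

theorem Fc_left (hadd : ∀ i x y, D i (x + y) = D i x + D i y)
    (hmul : ∀ i x y, D i (x * y) = D i x * y + x * D i y) {e : Matrix n n S} (he : e * e = e)
    (j k : ι) : e * Fc D e j k = Fc D e j k := by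
  unfold Fc
  rw [← mul_assoc, he]

theorem Fc_right (hadd : ∀ i x y, D i (x + y) = D i x + D i y)
    (hmul : ∀ i x y, D i (x * y) = D i x * y + x * D i y) {e : Matrix n n S} (he : e * e = e)
    (j k : ι) : Fc D e j k * e = Fc D e j k := by
  unfold Fc
  rw [mul_assoc, ← br_comm hadd hmul he, ← mul_assoc, he]

theorem D_tr (hadd : ∀ i x y, D i (x + y) = D i x + D i y)
    (hmul : ∀ i x y, D i (x * y) = D i x * y + x * D i y) {e : Matrix n n S} (he : e * e = e)
    (i j k l m : ι) : D i (Fc D e j k * Fc D e l m).trace =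
      (e * (Fc D e j k).map (D i) * e * Fc D e l m).trace +
      (e * (Fc D e l m).map (D i) * e * Fc D e j k).trace := by
  have key : ∀ (X Y : Matrix n n S), e * Y = Y → Y * e = Y →
      (X * Y).trace = (e * X * e * Y).trace := by
    intro X Y h1 h2
    rw [mul_assoc (e * X) e Y, h1, mul_assoc e X Y, Matrix.trace_mul_comm e (X * Y), mul_assoc,
      h2]
  rw [D_trace hadd, map_mul' hadd hmul, Matrix.trace_add,
    key _ _ (Fc_left hadd hmul he l m) (Fc_right hadd hmul he l m),
    Matrix.trace_mul_comm (Fc D e j k), key _ _ (Fc_left hadd hmul he j k)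
      (Fc_right hadd hmul he j k)]

theorem N_eq (hadd : ∀ i x y, D i (x + y) = D i x + D i y)
    (hmul : ∀ i x y, D i (x * y) = D i x * y + x * D i y) {e : Matrix n n S} (he : e * e = e)
    (i j k : ι) : e * (Fc D e j k).map (D i) * e =
      e * ((e.map (D j)).map (D i) * e.map (D k) + e.map (D j) * (e.map (D k)).map (D i)
        - ((e.map (D k)).map (D i) * e.map (D j) + e.map (D k) * (e.map (D j)).map (D i))) * e := by
  have h1 : (Fc D e j k).map (D i) =
      e.map (D i) * (e.map (D j) * e.map (D k) - e.map (D k) * e.map (D j)) +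
      e * ((e.map (D j)).map (D i) * e.map (D k) + e.map (D j) * (e.map (D k)).map (D i)
        - ((e.map (D k)).map (D i) * e.map (D j) + e.map (D k) * (e.map (D j)).map (D i))) := by
    unfold Fc
    rw [map_mul' hadd hmul, map_sub' hadd, map_mul' hadd hmul, map_mul' hadd hmul]
  rw [h1, mul_add, add_mul]
  have h2 : e * (e.map (D i) * (e.map (D j) * e.map (D k) - e.map (D k) * e.map (D j))) * e
      = 0 := by
    rw [mul_assoc, mul_assoc (e.map (D i)), ← br_comm hadd hmul he, ← mul_assoc (e.map (D i)),
      ← mul_assoc, ← mul_assoc, e_mid hadd hmul he, zero_mul]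
  rw [h2, zero_add, ← mul_assoc e e, he]

/-- Bianchi. -/
theorem bianchi (hadd : ∀ i x y, D i (x + y) = D i x + D i y)
    (hmul : ∀ i x y, D i (x * y) = D i x * y + x * D i y)
    (hcomm : ∀ i j x, D i (D j x) = D j (D i x)) {e : Matrix n n S} (he : e * e = e)
    (i j k : ι) : e * (Fc D e j k).map (D i) * e - e * (Fc D e i k).map (D j) * e +
      e * (Fc D e i j).map (D k) * e = 0 := by
  rw [N_eq hadd hmul he, N_eq hadd hmul he, N_eq hadd hmul he, ← sub_mul, ← add_mul, ← mul_sub,
    ← mul_add, map_comm' hcomm j i e, map_comm' hcomm k i e, map_comm' hcomm k j e]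
  have : ((e.map (D i)).map (D j) * e.map (D k) + e.map (D j) * (e.map (D i)).map (D k)
        - ((e.map (D i)).map (D k) * e.map (D j) + e.map (D k) * (e.map (D i)).map (D j))
      - ((e.map (D i)).map (D j) * e.map (D k) + e.map (D i) * (e.map (D j)).map (D k)
        - ((e.map (D j)).map (D k) * e.map (D i) + e.map (D k) * (e.map (D i)).map (D j)))
      + ((e.map (D i)).map (D k) * e.map (D j) + e.map (D i) * (e.map (D j)).map (D k)
        - ((e.map (D j)).map (D k) * e.map (D i) + e.map (D j) * (e.map (D i)).map (D k)))) = 0 := by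
    abel
  rw [this, mul_zero, zero_mul]

theorem bianchi_tr (hadd : ∀ i x y, D i (x + y) = D i x + D i y)
    (hmul : ∀ i x y, D i (x * y) = D i x * y + x * D i y)
    (hcomm : ∀ i j x, D i (D j x) = D j (D i x)) {e : Matrix n n S} (he : e * e = e)
    (i j k l m : ι) : (e * (Fc D e j k).map (D i) * e * Fc D e l m).trace -
      (e * (Fc D e i k).map (D j) * e * Fc D e l m).trace +
      (e * (Fc D e i j).map (D k) * e * Fc D e l m).trace = 0 := by
  rw [← Matrix.trace_sub, ← Matrix.trace_add, ← sub_mul, ← add_mul,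
    bianchi hadd hmul hcomm he, zero_mul, Matrix.trace_zero]

end

theorem closed_ok : S_CLOSED := by
  intro S ι n _ _ _ D hadd hmul hcomm e he t a b c d
  have B := bianchi_tr hadd hmul hcomm he
  unfold om
  simp only [D_two_mul hadd, hadd, D_sub hadd, D_tr hadd hmul he]
  have b1 := B t a b c d
  have b2 := B t a c b d
  have b3 := B t a d b c
  have b4 := B t b c a d
  have b5 := B t b d a c
  have b6 := B t c d a b
  have b7 := B a b c t d
  have b8 := B a b d t c
  have b9 := B a c d t b
  have b10 := B b c d t a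
  linear_combination 2 * b1 - 2 * b2 + 2 * b3 + 2 * b4 - 2 * b5 + 2 * b6 - 2 * b7 + 2 * b8
    - 2 * b9 + 2 * b10

end Pool.Agent.Helper15.AC
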